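import Pool.Agent.J6H80.BG.Stm3

/-!
# Module NB of project BG (helper80): comparison of `gh n` with `gh 0`
-/

set_option autoImplicit false

open MeasureTheory UnitAddTorus
open scoped ENNReal ContDiff

namespace Pool.Agent.J6H35.BG

open Pool.Agent.H751R2.LHY Pool.Agent.H751R2.LHY.G80 Pool.Agent.J6H80.BG

noncomputable section

/-- `1 - cos` at a representative in a ball -/
lemma one_sub_cs_le {r ℓ : ℝ} (hr : 0 ≤ r) (hℓ : 0 < ℓ) (n : Mom) (x : Fin 3 → ℝ)
    (hx : ‖ℓ • x‖ ≤ r) :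
    1 - cs n (fun a => ((x a : ℝ) : UnitAddCircle)) ≤
      3 / 2 * ((2 * Real.pi / ℓ) ^ 2 * H751R2.LHY.sq n) * r ^ 2 := by
  rw [cs_coe]
  have h1 := Real.one_sub_sq_div_two_le_cos (x := ∑ a, 2 * Real.pi * n a * x a)
  have h2 : (∑ a, 2 * Real.pi * n a * x a) ^ 2 ≤
      (2 * Real.pi) ^ 2 * (H751R2.LHY.sq n * ∑ a, x a ^ 2) := by
    have e : ∑ a, 2 * Real.pi * n a * x a = 2 * Real.pi * ∑ a, (n a : ℝ) * x a := by
      rw [Finset.mul_sum]
      exact Finset.sum_congr rfl fun a _ => by ring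
    rw [e, mul_pow]
    exact mul_le_mul_of_nonneg_left (Finset.sum_mul_sq_le_sq_mul_sq _ _ _) (by positivity)
  have hx' : ∀ a, x a ^ 2 ≤ (r / ℓ) ^ 2 := by
    intro a
    have h3 : |ℓ * x a| ≤ r := by
      have := (norm_le_pi_norm (ℓ • x) a).trans hx
      simpa using this
    rw [abs_mul, abs_of_pos hℓ] at h3
    have h4 : |x a| ≤ r / ℓ := by
      rw [le_div_iff₀ hℓ]; linarith
    rw [← sq_abs]
    exact pow_le_pow_left₀ (abs_nonneg _) h4 2
  have h5 : ∑ a, x a ^ 2 ≤ 3 * (r / ℓ) ^ 2 := by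
    rw [Fin.sum_univ_three]
    linarith [hx' 0, hx' 1, hx' 2]
  have h6 : 0 ≤ H751R2.LHY.sq n := h464_sq_nonneg n
  have h7 : (2 * Real.pi) ^ 2 * (H751R2.LHY.sq n * ∑ a, x a ^ 2) ≤
      (2 * Real.pi) ^ 2 * (H751R2.LHY.sq n * (3 * (r / ℓ) ^ 2)) :=
    mul_le_mul_of_nonneg_left (mul_le_mul_of_nonneg_left h5 h6) (by positivity)
  have h8 : 3 / 2 * ((2 * Real.pi / ℓ) ^ 2 * H751R2.LHY.sq n) * r ^ 2 =
      ((2 * Real.pi) ^ 2 * (H751R2.LHY.sq n * (3 * (r / ℓ) ^ 2))) / 2 := by
    field_simp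
  rw [h8]
  linarith

theorem t_NB : S_NB := by
  intro w hwm hwi h0 he r ℓ K q μ s hr hℓ hK hq hμ hs B0 hB0 c hc n
  classical
  obtain ⟨D, hD⟩ : ∃ D, D = 3 / 2 * ((2 * Real.pi / ℓ) ^ 2 * H751R2.LHY.sq n) * r ^ 2 :=
    ⟨_, rfl⟩
  rw [← hD]
  obtain ⟨WK, hWK⟩ : ∃ WK : T3 → ℝ, WK = fun y => min (Wr w ℓ y) K := ⟨_, rfl⟩
  have hWKp : Pot WK := by rw [hWK]; exact pot_min (Wr_pot hwm hwi he hℓ) hK
  have hWKle : ∀ y, WK y ≤ Wr w ℓ y := by
    intro y; rw [hWK]; exact min_le_left _ _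
  have hgoal : |gh WK B0 c 0 - gh WK B0 c n| ≤ D * (∫ y, WK y * |1 - wf B0 c y|) +
      1 / s * ((∫ x in {x | r < ‖x‖}, w x) / ℓ ^ 3) + s * gh WK B0 c 0 := by
    have hc' : Scat WK q μ B0 c := by rw [hWK]; exact hc
    obtain ⟨f, hf⟩ : ∃ f : T3 → ℝ, f = fun y => 1 - wf B0 c y := ⟨_, rfl⟩
    have hfy : ∀ y, 1 - wf B0 c y = f y := fun y => by rw [hf]
    have hfc : Continuous f := by rw [hf]; exact continuous_const.sub (h464_wf_cont B0 c)
    obtain ⟨w2, hw2⟩ : ∃ w2 : (Fin 3 → ℝ) → ℝ, w2 = Set.indicator {x | r < ‖x‖} w := ⟨_, rfl⟩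
    have hms : MeasurableSet {x : Fin 3 → ℝ | r < ‖x‖} :=
      measurableSet_lt measurable_const measurable_norm
    have hw2m : Measurable w2 := by rw [hw2]; exact hwm.indicator hms
    have hw2i : Integrable w2 := by rw [hw2]; exact hwi.indicator hms
    have hw20 : ∀ x, 0 ≤ w2 x := by
      intro x; rw [hw2]; exact Set.indicator_nonneg (fun x _ => h0 x) x
    have hw2e : ∀ x, w2 (-x) = w2 x := by
      intro x
      rw [hw2]
      by_cases hx : r < ‖x‖
      · have hx' : -x ∈ {x : Fin 3 → ℝ | r < ‖x‖} := by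
          rw [Set.mem_setOf_eq, norm_neg]; exact hx
        rw [Set.indicator_of_mem hx', Set.indicator_of_mem (show x ∈ _ from hx), he]
      · have hx' : -x ∉ {x : Fin 3 → ℝ | r < ‖x‖} := by
          rw [Set.mem_setOf_eq, norm_neg]; exact hx
        rw [Set.indicator_of_notMem hx', Set.indicator_of_notMem (show x ∉ _ from hx)]
    have hW2 : Pot (Wr w2 ℓ) := Wr_pot hw2m hw2i hw2e hℓ
    have hint2 : ∫ y, Wr w2 ℓ y = (∫ x in {x | r < ‖x‖}, w x) / ℓ ^ 3 := by
      rw [Wr_int_one hw2m hw2i hw20 hℓ, hw2, integral_indicator hms]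
    -- the pointwise estimate
    have key : ∀ y, WK y * |f y| * (1 - cs n y) ≤
        D * (WK y * |f y|) + 1 / s * Wr w2 ℓ y + s * (WK y * f y ^ 2) := by
      intro y
      have hW0 := hWKp.nonneg y
      have hcs := cs_le_one n y
      have hcs2 : -1 ≤ cs n y := (abs_le.1 (h464_cs_abs_le n y)).1
      have hW20 : 0 ≤ Wr w2 ℓ y := hW2.nonneg y
      have hWf : 0 ≤ WK y * |f y| := mul_nonneg hW0 (abs_nonneg _)
      by_cases hx : ∃ x : {x : Fin 3 → ℝ // (fun a => (x a : UnitAddCircle)) = y}, ‖ℓ • x.1‖ ≤ r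
      · obtain ⟨⟨x, hxy⟩, hxr⟩ := hx
        have h1 : 1 - cs n y ≤ D := by
          rw [← hxy, hD]
          exact one_sub_cs_le hr hℓ n x hxr
        have h2 : WK y * |f y| * (1 - cs n y) ≤ WK y * |f y| * D :=
          mul_le_mul_of_nonneg_left h1 hWf
        have h3 : 0 ≤ 1 / s * Wr w2 ℓ y := by positivity
        have h4 : 0 ≤ s * (WK y * f y ^ 2) := by positivity
        linarith
      · push Not at hx
        have h1 : Wr w ℓ y = Wr w2 ℓ y := by
          unfold Wr perPot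
          congr 1
          refine tsum_congr fun x => ?_
          rw [hw2, Set.indicator_of_mem (show ℓ • x.1 ∈ {x : Fin 3 → ℝ | r < ‖x‖} from hx x)]
        have h2 : WK y ≤ Wr w2 ℓ y := by rw [← h1]; exact hWKle y
        have h3 : WK y * |f y| * (1 - cs n y) ≤ WK y * |f y| * 2 :=
          mul_le_mul_of_nonneg_left (by linarith) hWf
        have h4 : 2 * |f y| ≤ 1 / s + s * f y ^ 2 := by
          have e : 1 / s + s * f y ^ 2 - 2 * |f y| = 1 / s * (1 - s * |f y|) ^ 2 := by
            rw [← sq_abs (f y)]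
            field_simp
            ring
          have e2 : 0 ≤ 1 / s * (1 - s * |f y|) ^ 2 := by positivity
          linarith
        have h5 : WK y * (2 * |f y|) ≤ WK y * (1 / s + s * f y ^ 2) :=
          mul_le_mul_of_nonneg_left h4 hW0
        have h6 : WK y * (1 / s) ≤ Wr w2 ℓ y * (1 / s) :=
          mul_le_mul_of_nonneg_right h2 (by positivity)
        have h7 : 0 ≤ D * (WK y * |f y|) := by
          have hD0 : 0 ≤ D := by
            rw [hD]
            have := h464_sq_nonneg n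
            positivity
          exact mul_nonneg hD0 hWf
        have e1 : WK y * (1 / s + s * f y ^ 2) = WK y * (1 / s) + s * (WK y * f y ^ 2) := by ring
        have e2 : WK y * |f y| * 2 = WK y * (2 * |f y|) := by ring
        have e3 : Wr w2 ℓ y * (1 / s) = 1 / s * Wr w2 ℓ y := by ring
        linarith
    -- integrability
    have i1 : Integrable (fun y => WK y * |f y|) := h464_int_mul hWKp.int hfc.abs
    have i2 : Integrable (fun y => WK y * f y ^ 2) := h464_int_mul hWKp.int (hfc.pow 2)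
    have i3 : Integrable (fun y => WK y * (f y * (1 - cs n y))) :=
      h464_int_mul hWKp.int (hfc.mul (continuous_const.sub (h464_cs_cont n)))
    have i4 : Integrable (fun y => WK y * (|f y| * (1 - cs n y))) :=
      h464_int_mul hWKp.int (hfc.abs.mul (continuous_const.sub (h464_cs_cont n)))
    have i5 : Integrable (fun y => WK y * (f y * cs n y)) :=
      h464_int_mul hWKp.int (hfc.mul (h464_cs_cont n))
    have i6 : Integrable (fun y => WK y * f y) := h464_int_mul hWKp.int hfc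
    have e1 : gh WK B0 c 0 - gh WK B0 c n = ∫ y, WK y * (f y * (1 - cs n y)) := by
      have e2 : gh WK B0 c 0 = ∫ y, WK y * f y := by
        unfold gh
        refine integral_congr_ae (ae_of_all _ fun y => ?_)
        simp only [h464_cs_zero, mul_one, hfy]
      have e3 : gh WK B0 c n = ∫ y, WK y * (f y * cs n y) := by
        unfold gh
        refine integral_congr_ae (ae_of_all _ fun y => ?_)
        simp only [hfy]
        ring
      rw [e2, e3, ← integral_sub i6 i5]
      exact integral_congr_ae (ae_of_all _ fun y => by simp only []; ring)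
    have e4 : |∫ y, WK y * (f y * (1 - cs n y))| ≤ ∫ y, WK y * |f y| * (1 - cs n y) := by
      refine (abs_integral_le_integral_abs).trans (le_of_eq ?_)
      refine integral_congr_ae (ae_of_all _ fun y => ?_)
      have hW0 := hWKp.nonneg y
      have hcs := cs_le_one n y
      simp only [abs_mul, abs_of_nonneg hW0, abs_of_nonneg (sub_nonneg.2 hcs)]
      ring
    have i7 : Integrable (fun y => WK y * |f y| * (1 - cs n y)) :=
      i4.congr (ae_of_all _ fun y => by simp only []; ring)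
    have e5 : ∫ y, WK y * |f y| * (1 - cs n y) ≤
        D * (∫ y, WK y * |f y|) + 1 / s * (∫ y, Wr w2 ℓ y) + s * ∫ y, WK y * f y ^ 2 := by
      rw [← h464_lin3 i1 hW2.int i2 D (1 / s) s]
      exact integral_mono i7 (((i1.const_mul D).add (hW2.int.const_mul (1 / s))).add
        (i2.const_mul s)) key
    have e6 : ∫ y, WK y * f y ^ 2 ≤ gh WK B0 c 0 := by
      rw [scat_Q hWKp hc']
      unfold Qf
      simp only [hfy]
      have : 0 ≤ ∑ n ∈ B0, (2 * (q * H751R2.LHY.sq n) + 2 * μ) * c n ^ 2 := by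
        refine Finset.sum_nonneg fun m _ => ?_
        have := h464_sq_nonneg m
        positivity
      linarith
    have e7 : s * ∫ y, WK y * f y ^ 2 ≤ s * gh WK B0 c 0 := mul_le_mul_of_nonneg_left e6 hs.le
    rw [e1]
    simp only [hfy]
    rw [hint2] at e5
    linarith
  rw [hWK] at hgoal
  exact hgoal

end

end Pool.Agent.J6H35.BG
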