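import Pool.Agent.J6H80.BG.Stm5
import Pool.Agent.J6H53.BG.TU

/-!
# Module UP of project BG (helper80): sharp upper bound of the two-body energy with mass

The telescoping argument of `Pool/Agent/J6H53/BG/TU.lean` with the ratio `s² → 1` and the sharp
lattice sum.
-/

set_option autoImplicit false

open MeasureTheory UnitAddTorus Filter
open scoped ENNReal ContDiff

namespace Pool.Agent.J6H35.BG

open Pool.Agent.H751R2.LHY Pool.Agent.H751R2.LHY.G80 Pool.Agent.J6H80.BG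
open Pool.Agent.H751R2.LHY.ClipH44

noncomputable section

/-- finite sums are bounded by the sharp lattice sum -/
lemma lat_fin_sharp {b ℓ q Δ θ : ℝ} (hb : 0 < b) (hℓ : 0 < ℓ) (hΔ : 0 < Δ)
    (hq : q = b * (2 * Real.pi / ℓ) ^ 2)
    (h1 : Summable (fun n : Fin 3 → ℤ => 1 / (q * H751R2.LHY.sq n + Δ) ^ 2))
    (h2 : |q * √q * ∑' n : Fin 3 → ℤ, 1 / (q * H751R2.LHY.sq n + Δ) ^ 2 - Real.pi ^ 2 / √Δ| ≤
      θ * (Real.pi ^ 2 / √Δ)) (F : Finset Mom) :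
    ∑ n ∈ F, 1 / (q * H751R2.LHY.sq n + Δ) ^ 2 ≤
      (1 + θ) * Real.pi ^ 2 * ℓ ^ 3 / (P0 b * √Δ) := by
  have hP0 := P0_pos hb
  have hsΔ := Real.sqrt_pos.2 hΔ
  refine (h1.sum_le_tsum F fun n _ => by positivity).trans ?_
  have h3 := (abs_le.1 h2).2
  rw [q_sqrt hb hℓ hq] at h3
  set SS := ∑' n : Fin 3 → ℤ, 1 / (q * H751R2.LHY.sq n + Δ) ^ 2
  have h4 : P0 b / ℓ ^ 3 * SS ≤ (1 + θ) * (Real.pi ^ 2 / √Δ) := by linarith
  have h5 : SS = ℓ ^ 3 / P0 b * (P0 b / ℓ ^ 3 * SS) := by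
    field_simp
  rw [h5]
  calc ℓ ^ 3 / P0 b * (P0 b / ℓ ^ 3 * SS) ≤ ℓ ^ 3 / P0 b * ((1 + θ) * (Real.pi ^ 2 / √Δ)) :=
        mul_le_mul_of_nonneg_left h4 (by positivity)
    _ = (1 + θ) * Real.pi ^ 2 * ℓ ^ 3 / (P0 b * √Δ) := by field_simp

/-- the property that the two-body energy with mass `μ` is at most `T` for large boxes -/
def UB (m : ℝ) (v : (Fin 3 → ℝ) → ℝ) (μ T : ℝ) : Prop :=
  ∃ L : ℝ, 0 < L ∧ ∀ ℓ : ℝ, L ≤ ℓ →
      ∀ K : ℝ, 0 ≤ K → ∀ᶠ R : ℕ in Filter.atTop, ∀ c : Mom → ℝ,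
        Scat (fun y => min (Wr v ℓ y) K) (1 / (2 * m) * (2 * Real.pi / ℓ) ^ 2) μ
          ((boxM R).erase 0) c →
        ℓ ^ 3 * gh (fun y => min (Wr v ℓ y) K) ((boxM R).erase 0) c 0 ≤ T

/-- one step of the telescoping -/
lemma up_step {m : ℝ} (hm : 0 < m) {w : (Fin 3 → ℝ) → ℝ} (hwm : Measurable w)
    (hw : Integrable w) (he : ∀ x, w (-x) = w x) {s S T A' η : ℝ} (hs : 0 < s)
    (hs1 : s < 1) (hS : 0 ≤ S) (hη : 0 < η)
    (hA : (S + η) ^ 2 * (1 + η) * Real.pi ^ 2 / P0 (1 / (2 * m)) ≤ A')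
    {μ : ℝ} (hμ : 0 < μ) (ih1 : UB m w (s ^ 2 * μ) S) (ih2 : UB m w (s ^ 2 * μ) T) :
    UB m w μ (T + (1 - s ^ 2) / (2 * s) * A' * √μ) := by
  unfold UB at ih1 ih2 ⊢
  obtain ⟨b, hb⟩ : ∃ b, b = 1 / (2 * m) := ⟨_, rfl⟩
  have hb0 : 0 < b := by rw [hb]; positivity
  rw [← hb] at hA ih1 ih2 ⊢
  have hPi := Real.pi_pos
  have hPb := P0_pos hb0
  have hsμ := Real.sqrt_pos.2 hμ
  obtain ⟨μ', hμ'⟩ : ∃ μ', μ' = s ^ 2 * μ := ⟨_, rfl⟩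
  have hμ'0 : 0 < μ' := by rw [hμ']; positivity
  rw [← hμ'] at ih1 ih2
  have hsμ' : √μ' = s * √μ := by
    rw [hμ', Real.sqrt_mul (by positivity), Real.sqrt_sq hs.le]
  have hsμ'0 : 0 < √μ' := Real.sqrt_pos.2 hμ'0
  obtain ⟨L1, hL1, H1⟩ := ih1
  obtain ⟨L3, hL3, H3⟩ := ih2
  obtain ⟨q1, hq1, hlat1⟩ := Pool.Agent.J6H48.BG.lat μ' hμ'0 (η * (Real.pi ^ 2 / √μ'))
    (by positivity)
  obtain ⟨L2, hL2, hL2'⟩ := q_small hb0 hq1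
  refine ⟨L1 + L2 + L3, by positivity, fun ℓ hℓ K hK => ?_⟩
  have hℓ0 : 0 < ℓ := by linarith
  have hℓ3 : 0 < ℓ ^ 3 := by positivity
  have hH := H1 ℓ (by linarith) K hK
  have hH3 := H3 ℓ (by linarith) K hK
  obtain ⟨q, hq⟩ : ∃ q, q = b * (2 * Real.pi / ℓ) ^ 2 := ⟨_, rfl⟩
  have hq0 : 0 < q := by rw [hq]; positivity
  have hκ : ∀ n, 0 ≤ q * H751R2.LHY.sq n := fun n => mul_nonneg hq0.le (sq_nonneg' n)
  obtain ⟨hsum, hb1⟩ := hlat1 q hq0 (by rw [hq]; exact hL2' ℓ (by linarith))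
  rw [← hq] at hH hH3 ⊢
  have hW := Wr_pot hwm hw he hℓ0
  have hWKp : Pot (fun y => min (Wr w ℓ y) K) := pot_min hW hK
  have hpos := pos_lim hWKp hK (fun y => min_le_right _ _) hq0 hμ'0
    (show 0 < η / ℓ ^ 3 by positivity)
  filter_upwards [hH, hH3, hpos] with R hR1 hR3 hR2 c hc
  set WK : T3 → ℝ := fun y => min (Wr w ℓ y) K with hWK
  set B0 := (boxM R).erase 0 with hB0
  obtain ⟨c', hc'⟩ := exists_scat hWKp hq0 hμ'0 (boxM_sym R)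
  rw [← hB0] at hc'
  have h1 := hR1 c' hc'
  have h1' := hR3 c' hc'
  have h2 := hR2 c' hc'
  have hgn : ∀ n, |gh WK B0 c' n| ≤ (S + η) / ℓ ^ 3 := by
    intro n
    refine (Pool.Agent.J6H53.BG.gh_abs_le hWKp B0 c' n).trans (h2.trans ?_)
    rw [le_div_iff₀ hℓ3, add_mul]
    have e1 : η / ℓ ^ 3 * ℓ ^ 3 = η := by field_simp
    rw [e1]
    linarith
  have hcn : ∀ n ∈ B0, c' n ^ 2 ≤
      ((S + η) / ℓ ^ 3) ^ 2 / 4 * (1 / (q * H751R2.LHY.sq n + μ') ^ 2) := by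
    intro n hn
    have h3 := hc'.eq n hn
    have h4 : 0 < q * H751R2.LHY.sq n + μ' := by have := hκ n; linarith
    have h5 : c' n = gh WK B0 c' n / (2 * (q * H751R2.LHY.sq n + μ')) := by
      rw [h3]; field_simp
    have h6 : gh WK B0 c' n ^ 2 ≤ ((S + η) / ℓ ^ 3) ^ 2 := by
      rw [← sq_abs (gh WK B0 c' n)]
      exact pow_le_pow_left₀ (abs_nonneg _) (hgn n) 2
    rw [h5, div_pow, mul_pow]
    calc gh WK B0 c' n ^ 2 / (2 ^ 2 * (q * H751R2.LHY.sq n + μ') ^ 2)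
        ≤ ((S + η) / ℓ ^ 3) ^ 2 / (2 ^ 2 * (q * H751R2.LHY.sq n + μ') ^ 2) := by gcongr
      _ = ((S + η) / ℓ ^ 3) ^ 2 / 4 * (1 / (q * H751R2.LHY.sq n + μ') ^ 2) := by
          field_simp
          norm_num
  have hom : ℓ ^ 3 * ∑ n ∈ B0, c' n ^ 2 ≤ A' / (4 * (s * √μ)) := by
    have h3 : ∑ n ∈ B0, c' n ^ 2 ≤ ((S + η) / ℓ ^ 3) ^ 2 / 4 *
        ∑ n ∈ B0, 1 / (q * H751R2.LHY.sq n + μ') ^ 2 := by
      rw [Finset.mul_sum]
      exact Finset.sum_le_sum hcn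
    have h4 := lat_fin_sharp hb0 hℓ0 hμ'0 hq hsum hb1 B0
    have h5 := mul_le_mul_of_nonneg_left h4 (show 0 ≤ ((S + η) / ℓ ^ 3) ^ 2 / 4 by positivity)
    calc ℓ ^ 3 * ∑ n ∈ B0, c' n ^ 2
        ≤ ℓ ^ 3 * (((S + η) / ℓ ^ 3) ^ 2 / 4 *
            ((1 + η) * Real.pi ^ 2 * ℓ ^ 3 / (P0 b * √μ'))) :=
          mul_le_mul_of_nonneg_left (h3.trans h5) hℓ3.le
      _ = ((S + η) ^ 2 * (1 + η) * Real.pi ^ 2 / P0 b) / (4 * (s * √μ)) := by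
          rw [hsμ']
          field_simp
      _ ≤ A' / (4 * (s * √μ)) := by gcongr
  have h3 := scat_min hWKp hq0 hμ hc c'
  rw [Pool.Agent.J6H53.BG.Qf_gap WK q μ μ' B0 c', ← scat_Q hWKp hc', ← scat_Q hWKp hc] at h3
  have h4 := mul_le_mul_of_nonneg_left h3 hℓ3.le
  have hμμ : 0 ≤ 2 * (μ - μ') := by
    have hs2 : s ^ 2 ≤ 1 := pow_le_one₀ hs.le hs1.le
    have : s ^ 2 * μ ≤ 1 * μ := mul_le_mul_of_nonneg_right hs2 hμ.le
    rw [hμ']; linarith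
  have h5 := mul_le_mul_of_nonneg_left hom hμμ
  have h6 : 2 * (μ - μ') * (A' / (4 * (s * √μ))) = (1 - s ^ 2) / (2 * s) * A' * √μ := by
    have h7 : μ = √μ * √μ := (Real.mul_self_sqrt hμ.le).symm
    have h8 : 2 * (μ - μ') = 2 * (1 - s ^ 2) * (√μ * √μ) := by rw [hμ', ← h7]; ring
    rw [h8]
    field_simp
    ring
  have h7 : ℓ ^ 3 * (gh WK B0 c' 0 + 2 * (μ - μ') * ∑ n ∈ B0, c' n ^ 2) =
      ℓ ^ 3 * gh WK B0 c' 0 + 2 * (μ - μ') * (ℓ ^ 3 * ∑ n ∈ B0, c' n ^ 2) := by ring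
  rw [h7] at h4
  rw [h6] at h5
  linarith

lemma UB.mono {m : ℝ} {v : (Fin 3 → ℝ) → ℝ} {μ T T' : ℝ} (h : UB m v μ T) (hT : T ≤ T') :
    UB m v μ T' := by
  obtain ⟨L, hL, H⟩ := h
  refine ⟨L, hL, fun ℓ hℓ K hK => ?_⟩
  filter_upwards [H ℓ hℓ K hK] with R hR c hc
  exact (hR c hc).trans hT

/-- **UP** -/
theorem t_UP : S_UP := by
  intro m hm v hvm hv h0 he _ ε hε
  have hPb := P0_pos (show 0 < 1 / (2 * m) by positivity)
  have hPi := Real.pi_pos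
  obtain ⟨P, hP⟩ : ∃ P, P = P0 (1 / (2 * m)) := ⟨_, rfl⟩
  rw [← hP] at hPb ⊢
  obtain ⟨G, hG⟩ : ∃ G, G = scatG m v := ⟨_, rfl⟩
  rw [← hG]
  have hG0 : 0 ≤ G := by
    rw [hG]
    unfold scatG
    refine Real.sInf_nonneg ?_
    rintro E ⟨f, _, rfl⟩
    exact dirE_nonneg hm h0 f
  obtain ⟨A0, hA0⟩ : ∃ A0, A0 = G ^ 2 * Real.pi ^ 2 / P := ⟨_, rfl⟩
  rw [← hA0]
  have hA00 : 0 ≤ A0 := by rw [hA0]; positivity
  -- the constants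
  obtain ⟨η, hη, hη2⟩ : ∃ η : ℝ, 0 < η ∧
      ((G + η) + η) ^ 2 * (1 + η) * Real.pi ^ 2 / P ≤ A0 + ε / 2 := by
    have hc : ContinuousAt (fun η : ℝ => ((G + η) + η) ^ 2 * (1 + η) * Real.pi ^ 2 / P) 0 := by
      fun_prop
    have h1 : (fun η : ℝ => ((G + η) + η) ^ 2 * (1 + η) * Real.pi ^ 2 / P) 0 < A0 + ε / 2 := by
      simp only [add_zero, mul_one]
      rw [← hA0]; linarith
    have h2 := hc.eventually_lt_const h1
    have h3 : ∀ᶠ η in nhdsWithin (0 : ℝ) (Set.Ioi 0),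
        ((G + η) + η) ^ 2 * (1 + η) * Real.pi ^ 2 / P < A0 + ε / 2 :=
      h2.filter_mono nhdsWithin_le_nhds
    obtain ⟨η, hη1, hη2⟩ := (h3.and self_mem_nhdsWithin).exists
    exact ⟨η, hη2, hη1.le⟩
  obtain ⟨s, hs, hs1, hs2⟩ : ∃ s : ℝ, 0 < s ∧ s < 1 ∧
      (1 + s) / (2 * s) * (A0 + ε / 2) ≤ A0 + 3 / 4 * ε := by
    have hc : ContinuousAt (fun s : ℝ => (1 + s) / (2 * s) * (A0 + ε / 2)) 1 := by
      refine ContinuousAt.mul (ContinuousAt.div (by fun_prop) (by fun_prop) (by norm_num))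
        continuousAt_const
    have h1 : (fun s : ℝ => (1 + s) / (2 * s) * (A0 + ε / 2)) 1 < A0 + 3 / 4 * ε := by
      norm_num
      linarith
    have h2 := hc.eventually_lt_const h1
    have h3 : ∀ᶠ s in nhdsWithin (1 : ℝ) (Set.Iio 1),
        (1 + s) / (2 * s) * (A0 + ε / 2) < A0 + 3 / 4 * ε := h2.filter_mono nhdsWithin_le_nhds
    have h4 : ∀ᶠ s in nhdsWithin (1 : ℝ) (Set.Iio 1), 0 < s :=
      (lt_mem_nhds (show (0 : ℝ) < 1 by norm_num)).filter_mono nhdsWithin_le_nhds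
    obtain ⟨s, ⟨hs1, hs2⟩, hs3⟩ := ((h3.and h4).and self_mem_nhdsWithin).exists
    exact ⟨s, hs2, hs3, hs1.le⟩
  obtain ⟨δ, hδ, hbase⟩ := Pool.Agent.J6H53.BG.tu_base hm hvm hv h0 he hη
  rw [← hG] at hbase
  refine ⟨δ, hδ, fun μ hμ hμδ => ?_⟩
  obtain ⟨ε2, hε2⟩ : ∃ ε2, ε2 = ε / 4 * √μ := ⟨_, rfl⟩
  have hsμ := Real.sqrt_pos.2 hμ
  have hε20 : 0 < ε2 := by rw [hε2]; positivity
  obtain ⟨δ2, hδ2, hbase2⟩ := Pool.Agent.J6H53.BG.tu_base hm hvm hv h0 he hε20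
  rw [← hG] at hbase2
  obtain ⟨D, hD⟩ : ∃ D, D = (1 + s) / (2 * s) * (A0 + ε / 2) := ⟨_, rfl⟩
  have hD0 : 0 ≤ D := by rw [hD]; positivity
  have key : ∀ J : ℕ, ∀ μ : ℝ, 0 < μ → μ ≤ δ → (s ^ 2) ^ J * μ ≤ δ2 →
      UB m v μ (G + ε2 + D * √μ) := by
    intro J
    induction J with
    | zero =>
      intro μ hμ hμδ hμJ
      have h1 : UB m v μ (G + ε2) := hbase2 μ hμ (by simpa using hμJ)
      refine h1.mono ?_
      have : 0 ≤ D * √μ := by positivity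
      linarith
    | succ J ih =>
      intro μ hμ hμδ hμJ
      have hs2 : s ^ 2 ≤ 1 := pow_le_one₀ hs.le hs1.le
      have h4 : 0 < s ^ 2 * μ := by positivity
      have h4' : s ^ 2 * μ ≤ δ := by
        have : s ^ 2 * μ ≤ 1 * μ := mul_le_mul_of_nonneg_right hs2 hμ.le
        linarith
      have h5 := ih (s ^ 2 * μ) h4 h4' (by rw [← mul_assoc, ← pow_succ]; exact hμJ)
      have h6 : UB m v (s ^ 2 * μ) (G + η) := hbase (s ^ 2 * μ) h4 h4'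
      have h7 := up_step (A' := A0 + ε / 2) hm hvm hv he hs hs1 (by positivity) hη
        (by rw [← hP]; exact hη2) hμ h6 h5
      refine h7.mono (le_of_eq ?_)
      have hsq : √(s ^ 2 * μ) = s * √μ := by
        rw [Real.sqrt_mul (by positivity), Real.sqrt_sq hs.le]
      rw [hsq, hD]
      field_simp
      ring
  obtain ⟨J, hJ⟩ := exists_pow_lt_of_lt_one (show 0 < δ2 / μ by positivity)
    (show s ^ 2 < 1 from pow_lt_one₀ hs.le hs1 (by norm_num))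
  rw [lt_div_iff₀ hμ] at hJ
  refine (key J μ hμ hμδ hJ.le).mono ?_
  have h1 : D * √μ ≤ (A0 + 3 / 4 * ε) * √μ := mul_le_mul_of_nonneg_right (by rw [hD]; exact hs2)
    hsμ.le
  rw [hε2]
  linarith

end

end Pool.Agent.J6H35.BG
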